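import Pool.Agent.Helper20.Griff.Goals

/-!
Packet G-B2 of MP_4f6c32_ag (helper20): Griffiths positivity from positivity of the block form.
-/

open Matrix Pool.Agent.Helper94.Griff Pool.Agent.Helper20.Griff
open scoped ComplexOrder

namespace Pool.Agent.Helper32.Griff

section sesq

variable {μ : Type*} [Fintype μ] {r : ℕ} (Γ : μ → μ → Matrix (Fin r) (Fin r) ℂ)

theorem sesq_conjTranspose (hΓ : ∀ a b, (Γ a b)ᴴ = Γ b a) (φ ψ : μ → ℂ) :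
    (sesq Γ φ ψ)ᴴ = sesq Γ ψ φ := by
  unfold sesq
  rw [Matrix.conjTranspose_sum]
  simp_rw [Matrix.conjTranspose_sum, Matrix.conjTranspose_smul, hΓ]
  rw [Finset.sum_comm]
  refine Finset.sum_congr rfl fun a _ => Finset.sum_congr rfl fun b _ => ?_
  congr 1
  simp [mul_comm]

theorem sesq_sum_left {κ : Type*} [Fintype κ] (c : κ → ℂ) (φ : κ → μ → ℂ) (ψ : μ → ℂ) :
    sesq Γ (∑ j, c j • φ j) ψ = ∑ j, c j • sesq Γ (φ j) ψ := by
  have h : ∀ a b, (((∑ j, c j • φ j) a * star (ψ b)) • Γ a b : Matrix (Fin r) (Fin r) ℂ) =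
      ∑ j, c j • ((φ j a * star (ψ b)) • Γ a b) := by
    intro a b
    simp_rw [smul_smul]
    rw [← Finset.sum_smul]
    congr 1
    rw [Finset.sum_apply, Finset.sum_mul]
    refine Finset.sum_congr rfl fun j _ => ?_
    rw [Pi.smul_apply, smul_eq_mul]
    ring
  unfold sesq
  simp_rw [h, Finset.smul_sum]
  calc ∑ a, ∑ b, ∑ j, c j • ((φ j a * star (ψ b)) • Γ a b)
      = ∑ a, ∑ j, ∑ b, c j • ((φ j a * star (ψ b)) • Γ a b) :=
        Finset.sum_congr rfl fun a _ => Finset.sum_comm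
    _ = ∑ j, ∑ a, ∑ b, c j • ((φ j a * star (ψ b)) • Γ a b) := Finset.sum_comm

theorem sesq_sum_right {κ : Type*} [Fintype κ] (c : κ → ℂ) (ψ : κ → μ → ℂ) (φ : μ → ℂ) :
    sesq Γ φ (∑ j, c j • ψ j) = ∑ j, star (c j) • sesq Γ φ (ψ j) := by
  have h : ∀ a b, ((φ a * star ((∑ j, c j • ψ j) b)) • Γ a b : Matrix (Fin r) (Fin r) ℂ) =
      ∑ j, star (c j) • ((φ a * star (ψ j b)) • Γ a b) := by
    intro a b
    simp_rw [smul_smul]
    rw [← Finset.sum_smul]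
    congr 1
    rw [Finset.sum_apply, star_sum, Finset.mul_sum]
    refine Finset.sum_congr rfl fun j _ => ?_
    rw [Pi.smul_apply, smul_eq_mul, star_mul']
    ring
  unfold sesq
  simp_rw [h, Finset.smul_sum]
  calc ∑ a, ∑ b, ∑ j, star (c j) • ((φ a * star (ψ j b)) • Γ a b)
      = ∑ a, ∑ j, ∑ b, star (c j) • ((φ a * star (ψ j b)) • Γ a b) :=
        Finset.sum_congr rfl fun a _ => Finset.sum_comm
    _ = ∑ j, ∑ a, ∑ b, star (c j) • ((φ a * star (ψ j b)) • Γ a b) := Finset.sum_comm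

end sesq

/-- G-B2. -/
theorem griff (h : StmtCurv) : StmtGriff := by
  intro n r μ _ Γ _ U hU φ hφ hpos w hw hblock ξ hξ v hv
  have hdet : ∀ z ∈ U, IsUnit (sesq Γ (φ z) (φ z)).det := fun z hz =>
    isUnit_iff_ne_zero.2 (hpos z hz).det_pos.ne'
  have hcurv := h n r μ Γ U hU φ hφ hdet w hw
  have hGpos := hpos w hw
  have hGu := hdet w hw
  set G := sesq Γ (φ w) (φ w) with hG
  have hGinv : (G⁻¹)ᴴ = G⁻¹ := hGpos.1.inv
  set u : Fin r → ℂ := G⁻¹ *ᵥ v with hu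
  have hu0 : u ≠ 0 := by
    intro h0
    apply hv
    have : G *ᵥ u = v := by
      rw [hu, Matrix.mulVec_mulVec, Matrix.mul_nonsing_inv _ hGu, Matrix.one_mulVec]
    rw [← this, h0, Matrix.mulVec_zero]
  set dφ : Fin n → μ → ℂ := fun j => fderiv ℂ φ w (Pi.single j 1) with hdφ
  have hdξ : fderiv ℂ φ w ξ = ∑ j, ξ j • dφ j := by
    have h1 : ξ = ∑ j, ξ j • (Pi.single j (1 : ℂ) : Fin n → ℂ) := by
      ext i
      simp [Finset.sum_apply, Pi.single_apply]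
    conv_lhs => rw [h1]
    rw [map_sum]
    refine Finset.sum_congr rfl fun j _ => ?_
    rw [map_smul]
  set S := sesq Γ (fderiv ℂ φ w ξ) (fderiv ℂ φ w ξ) with hS
  set A := sesq Γ (fderiv ℂ φ w ξ) (φ w) with hA
  set B := sesq Γ (φ w) (fderiv ℂ φ w ξ) with hB
  obtain ⟨x, hx, hxe⟩ := hblock ξ hξ u (-(G⁻¹ *ᵥ (B *ᵥ u))) hu0
  refine ⟨x, hx, ?_⟩
  rw [← hxe]
  -- the right-hand side
  have hstar : ∀ y z : Fin r → ℂ, star (G⁻¹ *ᵥ y) ⬝ᵥ z = star y ⬝ᵥ (G⁻¹ *ᵥ z) := by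
    intro y z
    rw [Matrix.star_mulVec, hGinv, ← Matrix.dotProduct_mulVec]
  have hGG : ∀ y : Fin r → ℂ, G *ᵥ (G⁻¹ *ᵥ y) = y := by
    intro y
    rw [Matrix.mulVec_mulVec, Matrix.mul_nonsing_inv _ hGu, Matrix.one_mulVec]
  have hrhs : star u ⬝ᵥ S *ᵥ u + star u ⬝ᵥ A *ᵥ (-(G⁻¹ *ᵥ (B *ᵥ u)))
      + star (-(G⁻¹ *ᵥ (B *ᵥ u))) ⬝ᵥ B *ᵥ u
      + star (-(G⁻¹ *ᵥ (B *ᵥ u))) ⬝ᵥ G *ᵥ (-(G⁻¹ *ᵥ (B *ᵥ u))) =
      star u ⬝ᵥ (S - A * G⁻¹ * B) *ᵥ u := by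
    rw [Matrix.mulVec_neg, Matrix.mulVec_neg, hGG, star_neg, Matrix.sub_mulVec,
      ← Matrix.mulVec_mulVec, ← Matrix.mulVec_mulVec, dotProduct_sub, dotProduct_neg,
      neg_dotProduct, dotProduct_neg, neg_dotProduct]
    ring
  rw [hrhs]
  -- the left-hand side
  have hterm : ∀ j l, star v ⬝ᵥ G⁻¹ *ᵥ ((curvature (fun z => (sesq Γ (φ z) (φ z))⁻¹) w j l) *ᵥ v) =
      star u ⬝ᵥ (sesq Γ (dφ j) (dφ l) - sesq Γ (dφ j) (φ w) * G⁻¹ * sesq Γ (φ w) (dφ l)) *ᵥ u := by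
    intro j l
    rw [hcurv j l, ← Matrix.mulVec_mulVec, ← hu, ← hstar v, ← hu]
  have hsum : S - A * G⁻¹ * B = ∑ j, ∑ l, (ξ j * star (ξ l)) •
      (sesq Γ (dφ j) (dφ l) - sesq Γ (dφ j) (φ w) * G⁻¹ * sesq Γ (φ w) (dφ l)) := by
    rw [hS, hA, hB, hdξ, sesq_sum_left, sesq_sum_left, sesq_sum_right, Finset.sum_mul,
      Finset.sum_mul, ← Finset.sum_sub_distrib]
    refine Finset.sum_congr rfl fun j _ => ?_
    rw [sesq_sum_right, Finset.mul_sum, Finset.smul_sum, ← Finset.sum_sub_distrib]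
    refine Finset.sum_congr rfl fun l _ => ?_
    rw [smul_sub, smul_smul, Matrix.mul_smul, Matrix.smul_mul, Matrix.smul_mul, smul_smul,
      mul_comm (star (ξ l)) (ξ j)]
  rw [hsum, Matrix.sum_mulVec, dotProduct_sum]
  refine Finset.sum_congr rfl fun j _ => ?_
  rw [Matrix.sum_mulVec, dotProduct_sum]
  refine Finset.sum_congr rfl fun l _ => ?_
  rw [Matrix.smul_mulVec, dotProduct_smul, smul_eq_mul]
  congr 1
  exact hterm j l

end Pool.Agent.Helper32.Griff
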