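import Pool.Agent.Helper32.Griff.B2

/-!
Packet G-B4 of MP_4f6c32_ag (helper20): the dual metric is positive definite.
-/

open Matrix Pool.Agent.Helper94.Griff Pool.Agent.Helper20.Griff
open scoped ComplexOrder

namespace Pool.Agent.Helper32.Griff

theorem coefG_conjTranspose {n r : ℕ} (T : Fin n → Fin n → Matrix (Fin r) (Fin r) ℂ) (ε K : ℝ)
    (hT : ∀ j l, (T j l)ᴴ = T l j) (a b : Mon n) :
    (coefG T ε K a b)ᴴ = coefG T ε K b a := by
  rcases a with a | j | p <;> rcases b with b | l | q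
  · simp [coefG]
  · simp [coefG]
  · simp [coefG]
  · simp [coefG]
  · simp only [coefG, Matrix.conjTranspose_add, hT]
    by_cases h : j = l
    · subst h
      simp [Matrix.conjTranspose_smul]
    · rw [if_neg h, if_neg (Ne.symm h), Matrix.conjTranspose_zero]
  · simp [coefG]
  · simp [coefG]
  · simp [coefG]
  · simp only [coefG]
    by_cases h : p = q
    · subst h
      simp [Matrix.conjTranspose_smul]
    · rw [if_neg h, if_neg (Ne.symm h), Matrix.conjTranspose_zero]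

theorem mul_star_self (a : ℂ) : a * star a = ((‖a‖ ^ 2 : ℝ) : ℂ) := by
  rw [Complex.star_def, Complex.mul_conj, Complex.normSq_eq_norm_sq]

/-- The expansion of the dual metric. -/
theorem sesq_coefG {n r : ℕ} (T : Fin n → Fin n → Matrix (Fin r) (Fin r) ℂ) (ε K : ℝ)
    (φ ψ : Mon n → ℂ) :
    sesq (coefG T ε K) φ ψ =
      (φ (Sum.inl ()) * star (ψ (Sum.inl ()))) • (1 : Matrix (Fin r) (Fin r) ℂ) +
      (∑ j, ∑ l, (φ (Sum.inr (Sum.inl j)) * star (ψ (Sum.inr (Sum.inl l)))) • T j l +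
        (∑ j, φ (Sum.inr (Sum.inl j)) * star (ψ (Sum.inr (Sum.inl j))) * (ε : ℂ)) •
          (1 : Matrix (Fin r) (Fin r) ℂ)) +
      (∑ p, φ (Sum.inr (Sum.inr p)) * star (ψ (Sum.inr (Sum.inr p))) * (K : ℂ)) •
        (1 : Matrix (Fin r) (Fin r) ℂ) := by
  unfold sesq
  rw [Fintype.sum_sum_type]
  simp only [Fintype.sum_sum_type, Finset.univ_unique, Finset.sum_singleton, coefG, smul_zero,
    Finset.sum_const_zero, add_zero, zero_add, smul_add]
  have h1 : ∀ j : Fin n, ∑ l, (φ (Sum.inr (Sum.inl j)) * star (ψ (Sum.inr (Sum.inl l)))) •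
      (if j = l then (ε : ℂ) • (1 : Matrix (Fin r) (Fin r) ℂ) else 0) =
      (φ (Sum.inr (Sum.inl j)) * star (ψ (Sum.inr (Sum.inl j))) * (ε : ℂ)) •
        (1 : Matrix (Fin r) (Fin r) ℂ) := by
    intro j
    rw [Finset.sum_eq_single j]
    · rw [if_pos rfl, smul_smul]
    · intro l _ hl
      rw [if_neg (Ne.symm hl), smul_zero]
    · intro h; exact absurd (Finset.mem_univ j) h
  have h2 : ∀ p : Fin n × Fin n, ∑ q : Fin n × Fin n,
      (φ (Sum.inr (Sum.inr p)) * star (ψ (Sum.inr (Sum.inr q)))) •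
      (if p = q then (K : ℂ) • (1 : Matrix (Fin r) (Fin r) ℂ) else 0) =
      (φ (Sum.inr (Sum.inr p)) * star (ψ (Sum.inr (Sum.inr p))) * (K : ℂ)) •
        (1 : Matrix (Fin r) (Fin r) ℂ) := by
    intro p
    rw [Finset.sum_eq_single p]
    · rw [if_pos rfl, smul_smul]
    · intro l _ hl
      rw [if_neg (Ne.symm hl), smul_zero]
    · intro h; exact absurd (Finset.mem_univ p) h
  simp only [Finset.sum_add_distrib, h1, h2, Finset.sum_smul]
  rw [add_assoc, add_assoc, add_assoc]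

/-- G-B4. -/
theorem posDef : StmtPosDef := by
  intro n r T hT ε K hε hK z hz
  refine Matrix.PosDef.of_dotProduct_mulVec_pos ?_ ?_
  · exact sesq_conjTranspose _ (coefG_conjTranspose T ε K hT.1) _ _
  intro u hu
  obtain ⟨y, hy, hye⟩ := hT.2 (fun j => z j.succ) u
  have hN : star u ⬝ᵥ u = ((∑ i, ‖u i‖ ^ 2 : ℝ) : ℂ) := by
    simp only [dotProduct, Pi.star_apply]
    push_cast
    refine Finset.sum_congr rfl fun i _ => ?_
    rw [mul_comm, mul_star_self]
    push_cast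
    rfl
  have hN0 : 0 < ∑ i, ‖u i‖ ^ 2 := by
    obtain ⟨i, hi⟩ : ∃ i, u i ≠ 0 := by
      by_contra h
      push Not at h
      exact hu (funext h)
    exact Finset.sum_pos' (fun i _ => sq_nonneg _) ⟨i, Finset.mem_univ i, by positivity⟩
  set N : ℝ := ∑ i, ‖u i‖ ^ 2 with hNdef
  have key : star u ⬝ᵥ (sesq (coefG T ε K) (mon z) (mon z)).mulVec u =
      ((‖z 0‖ ^ 4 * N + ‖z 0‖ ^ 2 * y + (∑ j : Fin n, ‖z 0 * z j.succ‖ ^ 2 * ε) * N +
        (∑ p : Fin n × Fin n, ‖z p.1.succ * z p.2.succ‖ ^ 2 * K) * N : ℝ) : ℂ) := by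
    rw [sesq_coefG]
    have hT' : ∑ j : Fin n, ∑ l : Fin n, (mon z (Sum.inr (Sum.inl j)) *
        star (mon z (Sum.inr (Sum.inl l)))) • T j l =
        ((‖z 0‖ ^ 2 : ℝ) : ℂ) • ∑ j : Fin n, ∑ l : Fin n, (z j.succ * star (z l.succ)) • T j l := by
      rw [Finset.smul_sum]
      refine Finset.sum_congr rfl fun j _ => ?_
      rw [Finset.smul_sum]
      refine Finset.sum_congr rfl fun l _ => ?_
      rw [smul_smul, ← mul_star_self]
      congr 1
      simp only [mon, Sum.elim_inr, Sum.elim_inl, star_mul']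
      ring
    rw [hT']
    simp only [Matrix.add_mulVec, Matrix.smul_mulVec, Matrix.one_mulVec, dotProduct_add,
      dotProduct_smul, smul_eq_mul, hye, hN, mul_star_self, mon, Sum.elim_inr, Sum.elim_inl]
    push_cast
    rw [norm_mul]
    push_cast
    ring
  rw [key]
  have h1 : 0 ≤ ‖z 0‖ ^ 2 * y := by positivity
  have h2 : 0 ≤ (∑ j : Fin n, ‖z 0 * z j.succ‖ ^ 2 * ε) * N := by positivity
  have h3 : 0 ≤ (∑ p : Fin n × Fin n, ‖z p.1.succ * z p.2.succ‖ ^ 2 * K) * N := by positivity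
  have h4 : 0 ≤ ‖z 0‖ ^ 4 * N := by positivity
  have hpos : 0 < ‖z 0‖ ^ 4 * N + ‖z 0‖ ^ 2 * y + (∑ j : Fin n, ‖z 0 * z j.succ‖ ^ 2 * ε) * N +
        (∑ p : Fin n × Fin n, ‖z p.1.succ * z p.2.succ‖ ^ 2 * K) * N := by
    by_cases h0 : z 0 = 0
    · obtain ⟨j, hj⟩ : ∃ j : Fin n, z j.succ ≠ 0 := by
        by_contra h
        push Not at h
        apply hz
        funext i
        refine Fin.cases h0 h i
      have h5 : 0 < ∑ p : Fin n × Fin n, ‖z p.1.succ * z p.2.succ‖ ^ 2 * K := by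
        refine Finset.sum_pos' (fun p _ => by positivity) ⟨(j, j), Finset.mem_univ _, ?_⟩
        have : 0 < ‖z j.succ * z j.succ‖ := norm_pos_iff.2 (mul_ne_zero hj hj)
        positivity
      have h6 := mul_pos h5 hN0
      linarith
    · have h5 : 0 < ‖z 0‖ := norm_pos_iff.2 h0
      have h6 : 0 < ‖z 0‖ ^ 4 * N := by positivity
      linarith
  exact_mod_cast hpos

end Pool.Agent.Helper32.Griff
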